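import Pool.Agent.helper93.FR.Spec

namespace Pool.Agent.helper15.FR

open Matrix BigOperators Pool.Agent.helper93.FR

theorem term_bound (r k l b : ℕ) (hr : 2 ≤ r) (hk : 1 ≤ k) (hb : b ≤ r)
    (h : ((r : ℝ) / k) * ((l : ℝ) + 4) * Real.log r ≤ b) :
    (1 - (b : ℝ) / r) ^ k ≤ ((r : ℝ) ^ (l + 4))⁻¹ := by
  have hr0 : (0 : ℝ) < r := by exact_mod_cast (by omega : 0 < r)
  have hk0 : (0 : ℝ) < k := by exact_mod_cast (by omega : 0 < k)
  have h1 : 0 ≤ 1 - (b : ℝ) / r := by
    rw [sub_nonneg, div_le_one hr0]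
    exact_mod_cast hb
  have h2 : 1 - (b : ℝ) / r ≤ Real.exp (-((b : ℝ) / r)) := Real.one_sub_le_exp_neg _
  have h3 : (1 - (b : ℝ) / r) ^ k ≤ (Real.exp (-((b : ℝ) / r))) ^ k := pow_le_pow_left₀ h1 h2 k
  refine h3.trans ?_
  rw [← Real.exp_nat_mul]
  have h4 : ((l : ℝ) + 4) * Real.log r ≤ (k : ℝ) * ((b : ℝ) / r) := by
    have h5 : (k : ℝ) / r * (((r : ℝ) / k) * ((l : ℝ) + 4) * Real.log r) ≤ (k : ℝ) / r * b :=
      mul_le_mul_of_nonneg_left h (by positivity)
    have h6 : (k : ℝ) / r * (((r : ℝ) / k) * ((l : ℝ) + 4) * Real.log r)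
        = ((l : ℝ) + 4) * Real.log r := by
      field_simp
    have h7 : (k : ℝ) / r * b = (k : ℝ) * ((b : ℝ) / r) := by
      field_simp
    linarith
  have h8 : ((r : ℝ) ^ (l + 4))⁻¹ = Real.exp (-(((l : ℝ) + 4) * Real.log r)) := by
    have : ((l : ℝ) + 4) * Real.log r = ((l + 4 : ℕ) : ℝ) * Real.log r := by push_cast; ring
    rw [Real.exp_neg, this, Real.exp_nat_mul, Real.exp_log hr0]
  rw [h8]
  apply Real.exp_le_exp.mpr
  linarith

/-- enumerate a subset of the range of `γ` by a tuple of given length -/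
theorem enum {r k : ℕ} (hk : 1 ≤ k) (γ : Fin k → Fin r) (S : Finset (Fin r))
    (hS : S ⊆ Finset.univ.image γ) (l : ℕ) (hl : S.card ≤ l) :
    ∃ s : Fin l → Fin r, (∀ x ∈ S, ∃ j, s j = x) ∧ ∀ j, ∃ i, γ i = s j := by
  classical
  let e := S.equivFin
  refine ⟨fun j => if h : (j : ℕ) < S.card then ((e.symm ⟨j, h⟩ : S) : Fin r)
    else γ ⟨0, by omega⟩, ?_, ?_⟩
  · intro x hx
    have h1 : ((e ⟨x, hx⟩ : Fin S.card) : ℕ) < S.card := (e ⟨x, hx⟩).2
    refine ⟨⟨(e ⟨x, hx⟩ : Fin S.card), by omega⟩, ?_⟩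
    simp only [h1, dif_pos]
    have h2 : (⟨((e ⟨x, hx⟩ : Fin S.card) : ℕ), h1⟩ : Fin S.card) = e ⟨x, hx⟩ := Fin.ext rfl
    rw [h2, Equiv.symm_apply_apply]
  · intro j
    by_cases h : (j : ℕ) < S.card
    · simp only [h, dif_pos]
      have h1 := hS (e.symm ⟨j, h⟩).2
      rw [Finset.mem_image] at h1
      obtain ⟨i, _, hi⟩ := h1
      exact ⟨i, hi⟩
    · simp only [h, dif_neg, not_false_iff]
      exact ⟨_, rfl⟩

theorem sum_sub {n : ℕ} (P : Fin n → Prop) [DecidablePred P] (f : Fin n → ℂ)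
    (hf : ∀ t, ¬ P t → f t = 0) : ∑ t : {t // P t}, f t = ∑ t, f t := by
  rw [← Fintype.sum_subtype_add_sum_subtype P f]
  have : ∑ t : {t // ¬ P t}, f t = 0 := Finset.sum_eq_zero fun t _ => hf t t.2
  rw [this, add_zero]

theorem sub_mul_left {n : ℕ} (P : Fin n → Prop) [DecidablePred P]
    (h Y : Matrix (Fin n) (Fin n) ℂ) (hP : ∀ p t, ¬ P t → h p t = 0) :
    (h * Y).submatrix (Subtype.val : {t // P t} → Fin n) (Subtype.val : {t // P t} → Fin n)
      = h.submatrix (Subtype.val : {t // P t} → Fin n) (Subtype.val : {t // P t} → Fin n)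
        * Y.submatrix (Subtype.val : {t // P t} → Fin n) (Subtype.val : {t // P t} → Fin n) := by
  ext p q
  simp only [Matrix.submatrix_apply, Matrix.mul_apply]
  rw [← sum_sub P (fun t => h p t * Y t q)]
  intro t ht
  rw [hP p t ht, zero_mul]

theorem sub_mul_right {n : ℕ} (P : Fin n → Prop) [DecidablePred P]
    (Y h : Matrix (Fin n) (Fin n) ℂ) (hP : ∀ t q, ¬ P t → h t q = 0) :
    (Y * h).submatrix (Subtype.val : {t // P t} → Fin n) (Subtype.val : {t // P t} → Fin n)
      = Y.submatrix (Subtype.val : {t // P t} → Fin n) (Subtype.val : {t // P t} → Fin n)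
        * h.submatrix (Subtype.val : {t // P t} → Fin n) (Subtype.val : {t // P t} → Fin n) := by
  ext p q
  simp only [Matrix.submatrix_apply, Matrix.mul_apply]
  rw [← sum_sub P (fun t => Y p t * h t q)]
  intro t ht
  rw [hP t q ht, mul_zero]

/-- an `h` supported in block `(c', c)` commutes with `Y` as soon as the restrictions to the
positions with label `c` or `c'` commute, `Y` block diagonal -/
theorem comm_of_sub {r n : ℕ} (a : Fin n → Fin r) (Y h : Matrix (Fin n) (Fin n) ℂ)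
    (hY : ∀ p q, a p ≠ a q → Y p q = 0) (c c' : Fin r)
    (hh : ∀ p q, h p q ≠ 0 → a p = c' ∧ a q = c)
    (hc : h.submatrix (Subtype.val : {t // a t = c ∨ a t = c'} → Fin n)
          (Subtype.val : {t // a t = c ∨ a t = c'} → Fin n)
        * Y.submatrix (Subtype.val : {t // a t = c ∨ a t = c'} → Fin n)
          (Subtype.val : {t // a t = c ∨ a t = c'} → Fin n)
      = Y.submatrix (Subtype.val : {t // a t = c ∨ a t = c'} → Fin n)
          (Subtype.val : {t // a t = c ∨ a t = c'} → Fin n)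
        * h.submatrix (Subtype.val : {t // a t = c ∨ a t = c'} → Fin n)
          (Subtype.val : {t // a t = c ∨ a t = c'} → Fin n)) :
    h * Y = Y * h := by
  have h1 : ∀ p t, ¬ (a t = c ∨ a t = c') → h p t = 0 := by
    intro p t ht
    by_contra hne
    exact ht (Or.inl (hh p t hne).2)
  have h2 : ∀ t q, ¬ (a t = c ∨ a t = c') → h t q = 0 := by
    intro t q ht
    by_contra hne
    exact ht (Or.inr (hh t q hne).1)
  rw [← sub_mul_left _ h Y h1, ← sub_mul_right _ Y h h2] at hc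
  ext p q
  by_cases hp : a p = c ∨ a p = c'
  · by_cases hq : a q = c ∨ a q = c'
    · have := congrFun (congrFun hc ⟨p, hp⟩) ⟨q, hq⟩
      simpa using this
    · rw [Matrix.mul_apply, Matrix.mul_apply]
      rw [Finset.sum_eq_zero, Finset.sum_eq_zero]
      · intro t _
        rw [h1 t q hq, mul_zero]
      · intro t _
        by_cases ht : h p t = 0
        · rw [ht, zero_mul]
        · have h3 := (hh p t ht).2
          rw [hY t q (fun h4 => hq (Or.inl (h4.symm.trans h3))), mul_zero]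
  · rw [Matrix.mul_apply, Matrix.mul_apply]
    rw [Finset.sum_eq_zero, Finset.sum_eq_zero]
    · intro t _
      by_cases ht : h t q = 0
      · rw [ht, mul_zero]
      · have h3 := (hh t q ht).1
        rw [hY p t (fun h4 => hp (Or.inr (h4.trans h3))), zero_mul]
    · intro t _
      rw [h2 p t hp, zero_mul]

/-- the restrictions commute if `h` and `Y` commute -/
theorem sub_comm {r n : ℕ} (a : Fin n → Fin r) (Y h : Matrix (Fin n) (Fin n) ℂ)
    (c c' : Fin r) (hh : ∀ p q, h p q ≠ 0 → a p = c' ∧ a q = c) (hc : h * Y = Y * h) :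
    h.submatrix (Subtype.val : {t // a t = c ∨ a t = c'} → Fin n)
          (Subtype.val : {t // a t = c ∨ a t = c'} → Fin n)
        * Y.submatrix (Subtype.val : {t // a t = c ∨ a t = c'} → Fin n)
          (Subtype.val : {t // a t = c ∨ a t = c'} → Fin n)
      = Y.submatrix (Subtype.val : {t // a t = c ∨ a t = c'} → Fin n)
          (Subtype.val : {t // a t = c ∨ a t = c'} → Fin n)
        * h.submatrix (Subtype.val : {t // a t = c ∨ a t = c'} → Fin n)
          (Subtype.val : {t // a t = c ∨ a t = c'} → Fin n) := by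
  have h1 : ∀ p t, ¬ (a t = c ∨ a t = c') → h p t = 0 := by
    intro p t ht
    by_contra hne
    exact ht (Or.inl (hh p t hne).2)
  have h2 : ∀ t q, ¬ (a t = c ∨ a t = c') → h t q = 0 := by
    intro t q ht
    by_contra hne
    exact ht (Or.inr (hh t q hne).1)
  rw [← sub_mul_left _ h Y h1, ← sub_mul_right _ Y h h2, hc]

theorem card_le {r n : ℕ} (a : Fin n → Fin r) (c c' : Fin r) :
    Fintype.card {t // a t = c ∨ a t = c'} ≤ dl a c + dl a c' := by
  classical
  rw [Fintype.card_subtype, Finset.filter_or]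
  exact Finset.card_union_le _ _

/-- the key step: a tuple `s` of length `2 (dl a c + dl a c')` with values in the range of `γ`
such that all `γ j` are good for `s` -/
theorem key (hComp : Comp_stmt) {r k n : ℕ} (hk : 1 ≤ k) (a : Fin n → Fin r)
    (X : Fin r → Matrix (Fin n) (Fin n) ℂ) (hX : ∀ i p q, a p ≠ a q → X i p q = 0)
    (γ : Fin k → Fin r) (c c' : Fin r) :
    ∃ s : Fin (2 * (dl a c + dl a c')) → Fin r, (∀ j, ∃ i, γ i = s j) ∧
      ∀ j, good a X s c c' (γ j) := by
  classical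
  obtain ⟨S, hS, hcard, hS2⟩ := hComp (Fin r) {t // a t = c ∨ a t = c'}
    (fun i => (X i).submatrix (Subtype.val : {t // a t = c ∨ a t = c'} → Fin n)
      (Subtype.val : {t // a t = c ∨ a t = c'} → Fin n)) (Finset.univ.image γ)
  have hl : S.card ≤ 2 * (dl a c + dl a c') :=
    hcard.trans (Nat.mul_le_mul_left 2 (card_le a c c'))
  obtain ⟨s, hs1, hs2⟩ := enum hk γ S hS _ hl
  refine ⟨s, hs2, fun j h hh hint => ?_⟩
  apply comm_of_sub a (X (γ j)) h (hX (γ j)) c c' hh
  refine (hS2 (h.submatrix (Subtype.val : {t // a t = c ∨ a t = c'} → Fin n)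
      (Subtype.val : {t // a t = c ∨ a t = c'} → Fin n)) ?_ (γ j)
      (Finset.mem_image_of_mem γ (Finset.mem_univ j))).1
  intro x hx
  obtain ⟨i, hi⟩ := hs1 x hx
  obtain ⟨h1, h2⟩ := hint i
  simp only [hi] at h1 h2
  refine ⟨sub_comm a (X x) h c c' hh h1, ?_⟩
  have h3 := sub_comm a (X x)ᴴ h c c' hh h2
  rw [Matrix.conjTranspose_submatrix]
  exact h3

theorem nbad_le {r n k l : ℕ} (a : Fin n → Fin r)
    (X : Fin r → Matrix (Fin n) (Fin n) ℂ) (γ : Fin k → Fin r) (s : Fin l → Fin r) (c c' : Fin r)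
    (hs : ∀ j, ∃ i, γ i = s j) : nbad a X γ c c' ≤ nbad a X s c c' := by
  classical
  unfold nbad
  apply Finset.card_le_card
  intro i hi
  rw [Finset.mem_filter] at hi ⊢
  refine ⟨hi.1, fun hgood => hi.2 fun h hh hint => hgood h hh fun j => ?_⟩
  obtain ⟨i', hi'⟩ := hs j
  have := hint i'
  simp only [hi'] at this
  exact this

theorem Samp (hHit : Hit_stmt) (hComp : Comp_stmt) : Samp_stmt := by
  classical
  intro r k hr hk N o st _ n a X D hF
  have hr0 : (0 : ℝ) < r := by exact_mod_cast (by omega : 0 < r)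
  let ι : Type := Σ cc : Fin r × Fin r, (Fin (2 * (dl a cc.1 + dl a cc.2)) → Fin r)
  let thr : Fin r × Fin r → ℝ := fun cc =>
    ((r : ℝ) / k) * (2 * (dl a cc.1 + dl a cc.2 : ℕ) + 4) * Real.log r
  let B : ι → Finset (Fin r) := fun t =>
    if thr t.1 ≤ (nbad a X t.2 t.1.1 t.1.2 : ℝ) then
      Finset.univ.filter fun i => ¬ good a X t.2 t.1.1 t.1.2 i
    else Finset.univ
  have hBcard : ∀ t : ι, (1 - ((B t).card : ℝ) / r) ^ k
      ≤ ((r : ℝ) ^ (2 * (dl a t.1.1 + dl a t.1.2) + 4))⁻¹ := by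
    intro t
    by_cases ht : thr t.1 ≤ (nbad a X t.2 t.1.1 t.1.2 : ℝ)
    · have h1 : B t = Finset.univ.filter fun i => ¬ good a X t.2 t.1.1 t.1.2 i := by
        simp only [B, ht, if_true]
      have h2 : (B t).card = nbad a X t.2 t.1.1 t.1.2 := by
        rw [h1]
        rfl
      rw [h2]
      apply term_bound r k _ _ hr hk
      · unfold nbad
        exact (Finset.card_le_univ _).trans (by simp)
      · have h3 := ht
        simp only [thr] at h3
        push_cast at h3 ⊢
        exact h3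
    · have h1 : B t = Finset.univ := by
        simp only [B, ht, if_false]
      rw [h1, Finset.card_univ, Fintype.card_fin, div_self hr0.ne', sub_self,
        zero_pow (by omega)]
      positivity
  have hsum : ∑ t : ι, (1 - ((B t).card : ℝ) / r) ^ k < 1 / 2 := by
    calc ∑ t : ι, (1 - ((B t).card : ℝ) / r) ^ k
        ≤ ∑ t : ι, ((r : ℝ) ^ (2 * (dl a t.1.1 + dl a t.1.2) + 4))⁻¹ :=
          Finset.sum_le_sum fun t _ => hBcard t
      _ = ∑ cc : Fin r × Fin r, ∑ _s : Fin (2 * (dl a cc.1 + dl a cc.2)) → Fin r,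
            ((r : ℝ) ^ (2 * (dl a cc.1 + dl a cc.2) + 4))⁻¹ := by
          rw [Fintype.sum_sigma]
      _ = ∑ cc : Fin r × Fin r, ((r : ℝ) ^ 4)⁻¹ := by
          apply Finset.sum_congr rfl
          intro cc _
          rw [Finset.sum_const, Finset.card_univ, Fintype.card_fun, Fintype.card_fin,
            Fintype.card_fin, nsmul_eq_mul, pow_add]
          push_cast
          have : ((r : ℝ) ^ (2 * (dl a cc.1 + dl a cc.2))) ≠ 0 := pow_ne_zero _ hr0.ne'
          field_simp
      _ = ((r : ℝ) ^ 2)⁻¹ := by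
          rw [Finset.sum_const, Finset.card_univ, Fintype.card_prod, Fintype.card_fin,
            nsmul_eq_mul]
          push_cast
          field_simp
      _ < 1 / 2 := by
          have h2 : (2 : ℝ) ≤ r := by exact_mod_cast hr
          rw [inv_eq_one_div]
          apply one_div_lt_one_div_of_lt (by norm_num)
          nlinarith
  obtain ⟨γ, hγ1, hγ2⟩ := hHit r k (by omega) hk ι B (fun i => mass N i) hsum
  refine ⟨γ, hγ1, fun c c' => ?_⟩
  obtain ⟨s, hs1, hs2⟩ := key hComp hk a X hF.blkX γ c c'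
  have h1 : (nbad a X γ c c' : ℝ) ≤ (nbad a X s c c' : ℝ) := by
    exact_mod_cast nbad_le a X γ s c c' hs1
  refine h1.trans ?_
  by_contra hcon
  rw [not_le] at hcon
  obtain ⟨j, hj⟩ := hγ2 ⟨(c, c'), s⟩
  have h2 : thr (c, c') ≤ (nbad a X s c c' : ℝ) := hcon.le
  have h3 : B ⟨(c, c'), s⟩ = Finset.univ.filter fun i => ¬ good a X s c c' i := by
    simp only [B, h2, if_true]
  rw [h3, Finset.mem_filter] at hj
  exact hj.2 (hs2 j)

end Pool.Agent.helper15.FR
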